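import Pool.Agent.P8H66.SQ.Complete

/-!
# The asymptotic value of `f_μ(m)`: `f_μ(m) = (2 m)^(3/2) / 4 + O(m) = m^(3/2) / √2 + O(m)`

`muOn G S` is `μ(G[S])`, the sum of the squared degrees of the subgraph induced by `S`; `fG G` is the minimum of
`μ(G[S]) + μ(G[V \ S])` over all vertex sets `S`, and `fmu m` is the maximum of `fG G` over all finite graphs with
`m` edges (the definitions of the starting file `OrderF`, which proves `(√(2m) - 3)³ / 4 ≤ f_μ(m) ≤ (√(2m))³`; the
lower bound is that of complete graphs).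

**Theorem.** Every graph with `m` edges has a bipartition with
`μ(G[V₁]) + μ(G[V₂]) ≤ (2 m)^(3/2) / 4 + m / 2`. Hence `|f_μ(m) - (2 m)^(3/2) / 4| ≤ 9 m / 2`, and complete graphs are
asymptotically extremal: `f_μ(K_n)` has the same asymptotic value for `m = n (n - 1) / 2`.

Proof of the upper bound. Let `s² = 2 m`, and put the vertex `v` in `V₁` with probability `(1 + ε_v) / 2`,
independently. With `E_v = ∑_{u ~ v} ε_u` the mean cost is at most `m / 2` plus
`¼ ∑_v (d_v² + E_v² + 2 ε_v d_v E_v)`. Random bipartitions (`ε = 0`) are good for complete graphs, but bad if there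
are vertices of large degree; bipartitions by the size of the degree are good for stars, and lose a factor
`4` for complete graphs. Let `x_v = d_v / s` and `ε_v = h(x_v)`, `h(x) = x - 1` for `x ≤ 1` and `h(x) = 1 - 1/x` for `x ≥ 1`.
Then the summand of `v` is at most `s ∑_{u ~ v} ψ(x_v, min(x_u, 1))` with `ψ(x, y) = 2 - y` for `x ≥ 1` and
`ψ(x, y) = x (2 - x - y)² + x² (2 - x)` for `x < 1` (here `∑_u x_u = s` is used), and
`ψ(x, min(z, 1)) + ψ(z, min(x, 1)) ≤ 2` for all `x, z ≥ 0`. So each of the `m` edges contributes at most `2 s`, and the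
sum is at most `2 m s = s³`.
-/

set_option autoImplicit false

namespace Pool.Agent.Results.MP_6e2d11_co.SharpAsymptotics

open Helper650_SD

theorem result (m : ℕ) :
    IsGreatest {k | ∃ (n : ℕ) (G : SimpleGraph (Fin n)), Nat.card G.edgeSet = m ∧ k = fG G} (fmu m) ∧
    (fmu m : ℝ) ≤ (√(2 * m)) ^ 3 / 4 + m / 2 ∧
    |(fmu m : ℝ) - (√(2 * m)) ^ 3 / 4| ≤ (9 / 2 : ℝ) * m ∧
    ∀ n : ℕ, n.choose 2 = m →
      |(fG (⊤ : SimpleGraph (Fin n)) : ℝ) - (√(2 * m)) ^ 3 / 4| ≤ (9 / 2 : ℝ) * m :=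
  ⟨Pool.Agent.P8H66.SQ.greatest m, Pool.Agent.P8H66.SQ.fmu_le4 m, Pool.Agent.P8H66.SQ.asymp m,
    fun n hn => hn ▸ Pool.Agent.P8H66.SQ.complete n⟩

end Pool.Agent.Results.MP_6e2d11_co.SharpAsymptotics
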